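import Pool.Agent.Work.MP_40574a_nt.Main
import Pool.Agent.Work.MT.RoughG

/-!
# MP_40574a_nt: bounded clusters of primes among the values of `x + 2y + 5z`

For every `r` there are a `k` and a `c > 0` such that for every admissible set `H` with `k` elements
and every large `n` with `4 ∤ n` there are at least `κ √n / (log n)^k` numbers `m` such that all the
numbers `m + h` (`h ∈ H`) are values of `x + 2y + 5z` on representations `n = x² + y² + z² + w²` with
`x, y, z, w ∈ ℕ`, all are free of prime factors `≤ n^c`, and at least `r` of them are prime.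
-/

set_option autoImplicit false

namespace Pool.Agent.Work.MP_40574a_nt_old.PrimeClusters

open Pool.Agent.Work.MP_40574a_nt Finset Pool.Agent.MT

/-- a number coprime to `30` in the window is a value of the linear form -/
lemma value {n p : ℕ} (h4 : ¬ 4 ∣ n) (h30 : Nat.Coprime p 30) (hlow : 29 * n ≤ p ^ 2)
    (hup : p ^ 2 ≤ 30 * n) :
    ∃ x y z w : ℕ, n = x ^ 2 + y ^ 2 + z ^ 2 + w ^ 2 ∧ x + 2 * y + 5 * z = p := by
  have h2 : p % 2 = 1 := by
    have : Nat.Coprime p 2 := Nat.Coprime.coprime_dvd_right (by norm_num) h30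
    rw [Nat.coprime_comm, Nat.coprime_two_left, Nat.odd_iff] at this
    exact this
  have h3 : p % 3 ≠ 0 := by
    intro h
    have h1 : 3 ∣ Nat.gcd p 30 := Nat.dvd_gcd (Nat.dvd_of_mod_eq_zero h) (by norm_num)
    rw [h30] at h1
    omega
  have h5 : p % 5 ≠ 0 := by
    intro h
    have h1 : 5 ∣ Nat.gcd p 30 := Nat.dvd_gcd (Nat.dvd_of_mod_eq_zero h) (by norm_num)
    rw [h30] at h1
    omega
  have hleZ : (p : ℤ) ^ 2 ≤ 30 * n := by exact_mod_cast hup
  obtain ⟨x, y, z, w, e1, e2, e3⟩ := main_int (n : ℤ) (p : ℤ) (by omega) (by omega) (by omega)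
    (by omega) hleZ
  have h29' : 29 * (n : ℤ) ≤ (p : ℤ) ^ 2 := by exact_mod_cast hlow
  obtain ⟨hx, hy, hz⟩ := nonneg_of_range e1 e2 (by omega) h29'
  lift x to ℕ using hx
  lift y to ℕ using hy
  lift z to ℕ using hz
  lift w to ℕ using e3
  exact ⟨x, y, z, w, by exact_mod_cast e1, by exact_mod_cast e2⟩

/-- a residue class modulo the primes `≤ D` that is good for all of `H` -/
lemma exists_residue (H : Finset ℕ) (hH : ∀ q : ℕ, q.Prime → ∃ v : ℕ, ∀ h ∈ H, ¬ q ∣ v + h)
    (D : ℕ) : ∃ v : ℕ, ∀ q : ℕ, q.Prime → q ≤ D → ∀ h ∈ H, ¬ q ∣ v + h := by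
  classical
  have h1 : ∀ q : ℕ, ∃ v : ℕ, q.Prime → ∀ h ∈ H, ¬ q ∣ v + h := by
    intro q
    by_cases hq : q.Prime
    · obtain ⟨v, hv⟩ := hH q hq
      exact ⟨v, fun _ => hv⟩
    · exact ⟨0, fun h => absurd h hq⟩
  choose f hf using h1
  have hpw : Set.Pairwise (((range (D + 1)).filter Nat.Prime : Finset ℕ) : Set ℕ)
      (Function.onFun Nat.Coprime (fun q => q)) := by
    intro p hp q hq hpq
    exact (Nat.coprime_primes (mem_filter.1 hp).2 (mem_filter.1 hq).2).2 hpq
  obtain ⟨v, hv⟩ := Nat.chineseRemainderOfFinset f (fun q => q) ((range (D + 1)).filter Nat.Prime)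
    (fun q hq => (mem_filter.1 hq).2.ne_zero) hpw
  refine ⟨v, fun q hq hqD h hh hd => ?_⟩
  have h2 := hv q (mem_filter.2 ⟨mem_range.2 (by omega), hq⟩)
  have h3 : v + h ≡ f q + h [MOD q] := Nat.ModEq.add_right h h2
  exact hf q hq h hh ((h3.dvd_iff dvd_rfl).1 hd)

theorem result (r : ℕ) : ∃ k : ℕ, ∃ c : ℝ, 0 < c ∧ ∀ H : Finset ℕ, H.card = k →
    (∀ q : ℕ, q.Prime → ∃ v : ℕ, ∀ h ∈ H, ¬ q ∣ v + h) → ∃ κ : ℝ, 0 < κ ∧
      ∃ n₀ : ℕ, ∀ n : ℕ, n₀ ≤ n → ¬ 4 ∣ n → ∃ T : Finset ℕ,
        κ * √(n : ℝ) / Real.log n ^ k ≤ (T.card : ℝ) ∧ ∀ m ∈ T,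
          (∀ h ∈ H, (∃ x y z w : ℕ,
            n = x ^ 2 + y ^ 2 + z ^ 2 + w ^ 2 ∧ x + 2 * y + 5 * z = m + h) ∧
            ∀ q : ℕ, q.Prime → q ∣ m + h → (n : ℝ) ^ c < q) ∧
          r ≤ (H.filter (fun h => (m + h).Prime)).card := by
  classical
  obtain ⟨k, hk2, c₀, hc₀, D₁, hmt⟩ := maynard_rough r
  refine ⟨k, c₀ / 4, by positivity, fun H hkH hadm => ?_⟩
  set e : Fin k → ℕ := fun i => H.orderEmbOfFin hkH i with he
  have he_mem : ∀ i, e i ∈ H := fun i => Finset.orderEmbOfFin_mem H hkH i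
  have he_inj : Function.Injective e := fun i j hij => (H.orderEmbOfFin hkH).injective hij
  have he_surj : ∀ h ∈ H, ∃ i, e i = h := by
    intro h hh
    have h1 := Finset.range_orderEmbOfFin H hkH
    have h2 : h ∈ Set.range (H.orderEmbOfFin hkH) := by
      rw [h1]
      exact hh
    exact h2
  set hmax : ℕ := H.sup id with hhmax
  have hle : ∀ h ∈ H, h ≤ hmax := fun h hh => Finset.le_sup (f := id) hh
  set D : ℕ := max D₁ (max hmax 5) with hD
  have hD1 : D₁ ≤ D := le_max_left _ _
  have hDh : hmax ≤ D := (le_max_left _ _).trans (le_max_right _ _)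
  have hD5 : 5 ≤ D := (le_max_right hmax 5).trans (le_max_right _ _)
  obtain ⟨v, hv⟩ := exists_residue H hadm D
  set P : ℕ := ∏ q ∈ (range (D + 1)).filter Nat.Prime, q with hP
  have hPpos : 0 < P := Finset.prod_pos fun q hq => (mem_filter.1 hq).2.pos
  have hPdvd : ∀ q : ℕ, q.Prime → (q ∣ P ↔ q ≤ D) := by
    intro q hq
    constructor
    · intro h
      rw [hP, Prime.dvd_finsetProd_iff hq.prime] at h
      obtain ⟨p, hp, hqp⟩ := h
      rw [mem_filter, mem_range] at hp
      rw [(Nat.prime_dvd_prime_iff_eq hq hp.2).1 hqp]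
      omega
    · intro h
      exact Finset.dvd_prod_of_mem (fun q => q) (mem_filter.2 ⟨mem_range.2 (by omega), hq⟩)
  -- coprimality to `P`
  have hcopP : ∀ h ∈ H, ∀ t : ℕ, Nat.Coprime P (P * t + (v + h)) := by
    intro h hh t
    rw [Nat.coprime_mul_left_add_right]
    apply Nat.coprime_of_dvd
    intro q hq h1 h2
    exact hv q hq ((hPdvd q hq).1 h1) h hh h2
  have h30P : 30 ∣ P := by
    have h2 : 2 ∣ P := (hPdvd 2 Nat.prime_two).2 (by omega)
    have h3 : 3 ∣ P := (hPdvd 3 Nat.prime_three).2 (by omega)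
    have h5 : 5 ∣ P := (hPdvd 5 Nat.prime_five).2 hD5
    omega
  -- the forms
  set C₀ : ℕ := 60 * P + v + hmax with hC₀
  obtain ⟨κ, hκ, N₀, hN₀⟩ := hmt D (fun _ => P) C₀ hD1
  set K : ℕ := 62 * P + v + hmax with hK
  -- a power of `n` beats `61 P`
  obtain ⟨n₁, hn₁⟩ : ∃ n₁ : ℕ, ∀ n : ℕ, n₁ ≤ n →
      ((61 * P : ℕ) : ℝ) ≤ (n : ℝ) ^ (1 / 4 : ℝ) := by
    have h1 := ((tendsto_rpow_atTop (show (0 : ℝ) < 1 / 4 by norm_num)).comp
      tendsto_natCast_atTop_atTop).eventually_ge_atTop ((61 * P : ℕ) : ℝ)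
    exact Filter.eventually_atTop.1 h1
  refine ⟨κ / (61 * P : ℕ), by positivity, max n₁ (max ((61 * P * (N₀ + 1)) ^ 2) ((2000 * K) ^ 2 + 1)), fun n hn h4 => ?_⟩
  have hna : n₁ ≤ n := (le_max_left _ _).trans hn
  have hnb : (61 * P * (N₀ + 1)) ^ 2 ≤ n := ((le_max_left _ _).trans (le_max_right _ _)).trans hn
  have hnc : (2000 * K) ^ 2 + 1 ≤ n := ((le_max_right _ _).trans (le_max_right _ _)).trans hn
  set s : ℕ := Nat.sqrt (29 * n) with hs
  have hs1 : s * s ≤ 29 * n := Nat.sqrt_le _
  have hs2 : 29 * n < (s + 1) * (s + 1) := Nat.lt_succ_sqrt _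
  set N : ℕ := s / (61 * P) + 1 with hN
  have h61 : 0 < 61 * P := by omega
  have hNs : s + 1 ≤ 61 * P * N := by
    have := Nat.lt_mul_div_succ s h61
    rw [hN]
    exact this
  have hNs2 : 61 * P * (N - 1) ≤ s := by
    have : N - 1 = s / (61 * P) := by rw [hN, Nat.add_sub_cancel]
    rw [this]
    exact Nat.mul_div_le s _
  have hN1 : 1 ≤ N := by rw [hN]; exact Nat.succ_pos _
  -- `N ≥ √n / (61 P)`
  have hsqn : (n : ℝ) ^ (1 / 2 : ℝ) ≤ ((61 * P : ℕ) : ℝ) * N := by
    rw [← Real.sqrt_eq_rpow]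
    rw [Real.sqrt_le_left (by positivity)]
    have h1 : n ≤ (61 * P * N) ^ 2 := by nlinarith
    exact_mod_cast h1
  have hNN₀ : N₀ ≤ N := by
    by_contra hcon
    push Not at hcon
    have h1 : 61 * P * N < 61 * P * (N₀ + 1) := Nat.mul_lt_mul_of_pos_left (by omega) h61
    have h2 : n < (61 * P * (N₀ + 1)) ^ 2 := by nlinarith
    omega
  set b : Fin k → ℕ := fun i => P * (60 * N) + (v + e i) with hb
  have hforms : Forms k D (fun _ => P) b := by
    refine ⟨fun _ => hPpos, fun _ => hPdvd, fun i => hcopP _ (he_mem i) _, ?_⟩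
    intro i j hij q hq hd
    have e1 : (((fun _ : Fin k => P) i : ℕ) : ℤ) * b j - ((fun _ : Fin k => P) j : ℕ) * b i =
        P * ((e j : ℤ) - e i) := by
      simp only [hb]
      push_cast
      ring
    rw [e1] at hd
    rcases (Nat.prime_iff_prime_int.1 hq).dvd_or_dvd hd with h1 | h1
    · exact (hPdvd q hq).1 (by exact_mod_cast h1)
    · have h2 : ((e j : ℤ) - e i) ≠ 0 := by
        intro h3
        exact hij (he_inj (by omega))
      have h3 := Int.le_of_dvd (abs_pos.2 h2) ((dvd_abs _ _).2 h1)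
      have h4 : |(e j : ℤ) - e i| ≤ hmax := by
        rw [abs_le]
        have := hle _ (he_mem i)
        have := hle _ (he_mem j)
        constructor <;> omega
      have h5 : (q : ℤ) ≤ hmax := h3.trans h4
      have h6 : q ≤ hmax := by exact_mod_cast h5
      omega
  have hbC : ∀ i, b i ≤ C₀ * N := by
    intro i
    have h1 := hle _ (he_mem i)
    simp only [hb, hC₀]
    nlinarith
  obtain ⟨V, hVcard, hV⟩ := hN₀ N hNN₀ b hforms hbC
  have hn1 : (1 : ℝ) ≤ n := by
    have : 1 ≤ n := by omega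
    exact_mod_cast this
  have hn0 : (0 : ℝ) < n := by linarith
  have hNr : (n : ℝ) ^ (1 / 2 : ℝ) / ((61 * P : ℕ) : ℝ) ≤ N := by
    rw [div_le_iff₀ (by exact_mod_cast h61)]
    linarith
  refine ⟨V.image (fun m => P * (m + 60 * N) + v), ?_, ?_⟩
  · -- the count
    rw [Finset.card_image_of_injective]
    · refine le_trans ?_ hVcard
      have hN2 : 2 ≤ N := by
        by_contra hcon
        have hN1' : N = 1 := by omega
        have h1 : s < 61 * P := by
          rw [hN1'] at hNs
          omega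
        have h2 : s + 1 ≤ 61 * P := h1
        have h3 : (s + 1) * (s + 1) ≤ (61 * P) * (61 * P) := Nat.mul_le_mul h2 h2
        have h4 : 61 * P ≤ 2000 * K := by
          simp only [hK]
          omega
        have h5 : (61 * P) * (61 * P) ≤ (2000 * K) * (2000 * K) := Nat.mul_le_mul h4 h4
        nlinarith
      have hNn : N ≤ n := by
        by_contra hcon
        push Not at hcon
        -- `N ≤ s + 1` and `s ≤ 29 n / s`
        have h1 : N ≤ s / 61 + 1 := by
          rw [hN]
          have : s / (61 * P) ≤ s / 61 :=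
            Nat.div_le_div_left (Nat.le_mul_of_pos_right 61 hPpos) (by norm_num)
          omega
        have h2 : n ≤ s / 61 := by omega
        have h3 : 61 * n ≤ s := by
          have := (Nat.le_div_iff_mul_le (by norm_num : 0 < 61)).1 h2
          omega
        have h4 : (61 * n) * (61 * n) ≤ s * s := Nat.mul_le_mul h3 h3
        have h5 : 1 ≤ n := by omega
        nlinarith
      have hlN : 0 < Real.log N := Real.log_pos (by exact_mod_cast (by omega : 1 < N))
      have hln : Real.log N ≤ Real.log n :=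
        Real.log_le_log (by exact_mod_cast hN1) (by exact_mod_cast hNn)
      calc κ / ((61 * P : ℕ) : ℝ) * √(n : ℝ) / Real.log n ^ k
          = κ * ((n : ℝ) ^ (1 / 2 : ℝ) / ((61 * P : ℕ) : ℝ)) / Real.log n ^ k := by
            rw [Real.sqrt_eq_rpow]
            ring
        _ ≤ κ * N / Real.log N ^ k := by gcongr
    · intro m m' hmm
      simp only [Nat.add_right_cancel_iff] at hmm
      have := Nat.eq_of_mul_eq_mul_left hPpos hmm
      omega
  · intro c hc
    rw [mem_image] at hc
    obtain ⟨m, hm, rfl⟩ := hc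
    obtain ⟨hmI, hm3, hm4⟩ := hV m hm
    rw [mem_Ioc] at hmI
    obtain ⟨hm1, hm2⟩ := hmI
    constructor
    · intro h hh
      refine ⟨?_, ?_⟩
      swap
      · -- no small prime factors
        intro q hq hqd
        obtain ⟨i, hi⟩ := he_surj h hh
        have e1 : P * (m + 60 * N) + v + h = P * m + b i := by
          simp only [hb, hi]
          ring
        rw [e1] at hqd
        refine lt_of_le_of_lt ?_ (hm4 i q hq hqd)
        have h1 : (n : ℝ) ^ (1 / 4 : ℝ) ≤ N := by
          refine le_trans ?_ hNr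
          rw [le_div_iff₀ (by exact_mod_cast h61)]
          calc (n : ℝ) ^ (1 / 4 : ℝ) * ((61 * P : ℕ) : ℝ)
              ≤ (n : ℝ) ^ (1 / 4 : ℝ) * (n : ℝ) ^ (1 / 4 : ℝ) := by
                have := hn₁ n hna
                gcongr
            _ = (n : ℝ) ^ (1 / 2 : ℝ) := by
                rw [← Real.rpow_add hn0]
                norm_num
        calc (n : ℝ) ^ (c₀ / 4) = ((n : ℝ) ^ (1 / 4 : ℝ)) ^ c₀ := by
              rw [← Real.rpow_mul hn0.le]
              congr 1
              ring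
          _ ≤ (N : ℝ) ^ c₀ := Real.rpow_le_rpow (by positivity) h1 hc₀.le
      have hhm := hle h hh
      have hlow : s + 1 ≤ P * (m + 60 * N) + v + h := by
        have : P * (61 * N) ≤ P * (m + 60 * N) := Nat.mul_le_mul_left _ (by omega)
        nlinarith
      have hup : 61 * (P * (m + 60 * N) + v + h) ≤ 62 * s + 61 * K := by
        have h1 : P * (m + 60 * N) ≤ P * (62 * N) := Nat.mul_le_mul_left _ (by omega)
        obtain ⟨N', hN'⟩ : ∃ N', N = N' + 1 := ⟨N - 1, by omega⟩
        rw [hN'] at hNs2 h1 ⊢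
        simp only [Nat.add_sub_cancel] at hNs2
        have h2 : 61 * (P * (62 * (N' + 1))) ≤ 62 * s + 61 * (62 * P) := by nlinarith
        simp only [hK]
        nlinarith
      apply value h4
      · have h1 := hcopP h hh (m + 60 * N)
        have h2 : Nat.Coprime 30 (P * (m + 60 * N) + (v + h)) :=
          Nat.Coprime.coprime_dvd_left h30P h1
        rw [← Nat.add_assoc] at h2
        exact h2.symm
      · nlinarith
      · -- upper bound
        have hsK : 2000 * K ≤ s := by
          by_contra hcon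
          push Not at hcon
          have h1 : (s + 1) * (s + 1) ≤ (2000 * K) * (2000 * K) := Nat.mul_le_mul hcon hcon
          nlinarith
        set c := P * (m + 60 * N) + v + h with hc
        have h1 : (61 * c) ^ 2 ≤ (62 * s + 61 * K) ^ 2 := Nat.pow_le_pow_left hup 2
        have h2 : 29 * (62 * s + 61 * K) ^ 2 ≤ 30 * 3721 * (s * s) := by
          nlinarith [Nat.mul_le_mul_left s hsK, Nat.mul_le_mul_left K hsK]
        nlinarith
    · -- the primes
      refine hm3.trans ?_
      have hsub : (univ.filter (fun i : Fin k => (P * m + b i).Prime)).image e ⊆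
          H.filter (fun h => (P * (m + 60 * N) + v + h).Prime) := by
        intro h hh
        rw [mem_image] at hh
        obtain ⟨i, hi, rfl⟩ := hh
        rw [mem_filter] at hi ⊢
        refine ⟨he_mem i, ?_⟩
        have e1 : P * (m + 60 * N) + v + e i = P * m + b i := by
          simp only [hb]
          ring
        rw [e1]
        exact hi.2
      calc (univ.filter (fun i : Fin k => (P * m + b i).Prime)).card =
          ((univ.filter (fun i : Fin k => (P * m + b i).Prime)).image e).card :=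
            (Finset.card_image_of_injective _ he_inj).symm
        _ ≤ _ := Finset.card_le_card hsub

end Pool.Agent.Work.MP_40574a_nt_old.PrimeClusters
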